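import Mathlib

/-!
# The fractional minimal rank need not be attained
-/

set_option autoImplicit false

namespace Pool.Agent.Results.MP_3569d7_al.NotAttained

open Matrix

/-- A partial matrix: `none` is an unspecified entry, `some a` a known entry `a`. -/
abbrev PartialMatrix (F : Type*) (m n : Type) := m → n → Option F

section defs

variable {F : Type*} [Field F] {m n : Type} [Fintype m] [Fintype n]

/-- `B` is a completion of `A`. -/
def IsCompletion (A : PartialMatrix F m n) (B : Matrix m n F) : Prop :=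
  ∀ i j a, A i j = some a → B i j = a

/-- The minimal rank. -/
noncomputable def mr (A : PartialMatrix F m n) : ℕ :=
  sInf {r | ∃ B : Matrix m n F, IsCompletion A B ∧ B.rank = r}

/-- The partial block matrix `A ⊗ I_b`. -/
def tensor (A : PartialMatrix F m n) (b : ℕ) : PartialMatrix F (m × Fin b) (n × Fin b) :=
  fun p q => (A p.1 q.1).map fun a => if p.2 = q.2 then a else 0

/-- The fractional minimal rank. -/
noncomputable def fmr (A : PartialMatrix F m n) : ℝ :=
  ⨅ b : {b : ℕ // 1 ≤ b}, (mr (tensor A b) : ℝ) / (b : ℕ)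

end defs

section general

variable {F : Type*} [Field F] {m n : Type} [Fintype n]

theorem exists_completion (A : PartialMatrix F m n) :
    ∃ B : Matrix m n F, IsCompletion A B ∧ B.rank = mr A := by
  refine Nat.sInf_mem (s := {r | ∃ B : Matrix m n F, IsCompletion A B ∧ B.rank = r})
    ⟨_, fun i j => (A i j).getD 0, ?_, rfl⟩
  intro i j a h
  simp [h]

theorem mr_le {A : PartialMatrix F m n} {B : Matrix m n F} (h : IsCompletion A B) :
    mr A ≤ B.rank := Nat.sInf_le ⟨B, h, rfl⟩

end general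

section schur

variable {F : Type*} [Field F] {N p q : Type} [Fintype N] [DecidableEq N] [Fintype q]

theorem rank_schur (C : Matrix N q F) (R : Matrix p N F) (D : Matrix p q F) :
    Fintype.card N + (D - R * C).rank ≤
      (Matrix.fromBlocks 1 C R D : Matrix (N ⊕ p) (N ⊕ q) F).rank := by
  have h1 := LinearMap.finrank_range_add_finrank_ker
    (Matrix.fromBlocks 1 C R D : Matrix (N ⊕ p) (N ⊕ q) F).mulVecLin
  have h2 := LinearMap.finrank_range_add_finrank_ker (D - R * C).mulVecLin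
  have h3 : Module.finrank F (LinearMap.ker
      (Matrix.fromBlocks 1 C R D : Matrix (N ⊕ p) (N ⊕ q) F).mulVecLin) ≤
      Module.finrank F (LinearMap.ker (D - R * C).mulVecLin) := by
    let g : (N ⊕ q → F) →ₗ[F] (q → F) := LinearMap.funLeft F F Sum.inr
    have hk : ∀ w ∈ LinearMap.ker
        (Matrix.fromBlocks 1 C R D : Matrix (N ⊕ p) (N ⊕ q) F).mulVecLin,
        w ∘ Sum.inl = - (C *ᵥ (w ∘ Sum.inr)) ∧ (D - R * C) *ᵥ (w ∘ Sum.inr) = 0 := by
      intro w hw
      rw [LinearMap.mem_ker, Matrix.mulVecLin_apply, Matrix.fromBlocks_mulVec] at hw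
      have ha : (1 : Matrix N N F) *ᵥ (w ∘ Sum.inl) + C *ᵥ (w ∘ Sum.inr) = 0 := by
        funext i; exact congrFun hw (Sum.inl i)
      have hb : R *ᵥ (w ∘ Sum.inl) + D *ᵥ (w ∘ Sum.inr) = 0 := by
        funext i; exact congrFun hw (Sum.inr i)
      rw [Matrix.one_mulVec] at ha
      have ha' := eq_neg_of_add_eq_zero_left ha
      refine ⟨ha', ?_⟩
      rw [ha', Matrix.mulVec_neg, Matrix.mulVec_mulVec] at hb
      rw [Matrix.sub_mulVec, ← hb]
      abel
    let g' : LinearMap.ker (Matrix.fromBlocks 1 C R D : Matrix (N ⊕ p) (N ⊕ q) F).mulVecLin →ₗ[F]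
        LinearMap.ker (D - R * C).mulVecLin :=
      g.restrict fun w hw => by
        rw [LinearMap.mem_ker, Matrix.mulVecLin_apply]
        exact (hk w hw).2
    refine LinearMap.finrank_le_finrank_of_injective (f := g') ?_
    rw [← LinearMap.ker_eq_bot, LinearMap.ker_eq_bot']
    rintro ⟨w, hw⟩ h0
    have h0' : w ∘ Sum.inr = 0 := congrArg Subtype.val h0
    have := (hk w hw).1
    rw [h0', Matrix.mulVec_zero, neg_zero] at this
    ext i
    rcases i with i | i
    · exact congrFun this i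
    · exact congrFun h0' i
  rw [Matrix.rank, Matrix.rank]
  have h4 : Module.finrank F (N ⊕ q → F) = Fintype.card N + Fintype.card q := by
    rw [Module.finrank_fintype_fun_eq_card, Fintype.card_sum]
  have h5 : Module.finrank F (q → F) = Fintype.card q := Module.finrank_fintype_fun_eq_card F
  omega

theorem eq_zero_of_rank (E : Matrix p q F) (h : E.rank = 0) : E = 0 := by
  rw [Matrix.rank, Submodule.finrank_eq_zero, LinearMap.range_eq_bot] at h
  ext i j
  classical
  have := congrFun (LinearMap.congr_fun h (Pi.single j 1)) i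
  simpa using this

theorem eq_mul_of_rank_le (C : Matrix N q F) (R : Matrix p N F) (D : Matrix p q F)
    (h : (Matrix.fromBlocks 1 C R D : Matrix (N ⊕ p) (N ⊕ q) F).rank ≤ Fintype.card N) :
    D = R * C := by
  have h1 := rank_schur C R D
  exact sub_eq_zero.mp (eq_zero_of_rank _ (by omega))

end schur

section example_

variable {F : Type*} [Field F]

/-- The first three coordinates of the last eleven rows. -/
def rowK (q : F) : Fin 11 → Fin 3 → Option F :=
  ![![some 1, none, some 0],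
    ![some 0, some 1, none],
    ![some 1, none, some 0],
    ![some 0, some 1, none],
    ![some 1, some 0, none],
    ![some 1, none, none],
    ![some 1, some 1, none],
    ![some 1, none, none],
    ![some 1, some q, none],
    ![none, some 0, some 0],
    ![none, some 0, some 0]]

/-- The first three coordinates of the last nine columns. -/
def colK (F : Type*) [Field F] : Fin 9 → Fin 3 → Option F :=
  ![![none, none, some 1],
    ![none, none, some 1],
    ![none, some 1, some 0],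
    ![none, some 0, some 1],
    ![some 0, none, some 1],
    ![some 0, some 1, some (-1)],
    ![none, some 1, some 0],
    ![none, some 0, some 1],
    ![some 0, none, some 1]]

/-- The lower right part. -/
def botK (F : Type*) [Field F] : Fin 11 → Fin 9 → Option F :=
  ![![some 0, none, some 0, none, none, none, none, none, none],
    ![some 0, none, none, none, none, none, none, none, some 0],
    ![none, some 0, none, none, none, none, some 0, none, none],
    ![none, some 0, none, none, some 0, none, none, none, none],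
    ![some 0, some 0, none, none, none, none, none, none, none],
    ![none, none, some 0, some 0, none, some 0, none, none, none],
    ![none, none, none, some 0, some 0, none, none, none, none],
    ![none, none, none, none, none, some 0, some 0, some 0, none],
    ![none, none, none, none, none, none, none, some 0, some 0],
    ![none, none, some 1, none, none, none, none, none, none],
    ![none, none, none, none, none, none, some 1, none, none]]

/-- The partial matrix, with rows and columns split as `3 + 11` and `3 + 9`. -/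
def A' (q : F) : PartialMatrix F (Fin 3 ⊕ Fin 11) (Fin 3 ⊕ Fin 9)
  | .inl i, .inl j => some (if i = j then 1 else 0)
  | .inl i, .inr j => colK F j i
  | .inr i, .inl j => rowK q i j
  | .inr i, .inr j => botK F i j

variable {b : ℕ}

/-- The matrix of a block. -/
def bl {m n : Type} (B : Matrix (m × Fin b) (n × Fin b) F) (i : m) (j : n) :
    Matrix (Fin b) (Fin b) F := fun p q => B (i, p) (j, q)

theorem bl_known {m n : Type} {A : PartialMatrix F m n} {B : Matrix (m × Fin b) (n × Fin b) F}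
    (hB : IsCompletion (tensor A b) B) {i : m} {j : n} {a : F} (h : A i j = some a) :
    bl B i j = a • (1 : Matrix (Fin b) (Fin b) F) := by
  ext p q
  have := hB (i, p) (j, q) (if p = q then a else 0) (by simp [tensor, h])
  rw [bl, this, Matrix.smul_apply, Matrix.one_apply]
  split_ifs <;> simp

theorem blocks {q : F} {B : Matrix ((Fin 3 ⊕ Fin 11) × Fin b) ((Fin 3 ⊕ Fin 9) × Fin b) F}
    (hB : IsCompletion (tensor (A' q) b) B) (hr : B.rank ≤ 3 * b) (i : Fin 11) (j : Fin 9) :
    bl B (.inr i) (.inr j) = ∑ k : Fin 3, bl B (.inr i) (.inl k) * bl B (.inl k) (.inr j) := by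
  set C : Matrix (Fin 3 × Fin b) (Fin 9 × Fin b) F := fun x y => B (.inl x.1, x.2) (.inr y.1, y.2)
    with hC
  set R : Matrix (Fin 11 × Fin b) (Fin 3 × Fin b) F := fun x y => B (.inr x.1, x.2) (.inl y.1, y.2)
    with hR
  set D : Matrix (Fin 11 × Fin b) (Fin 9 × Fin b) F := fun x y => B (.inr x.1, x.2) (.inr y.1, y.2)
    with hD
  have e : (Matrix.fromBlocks 1 C R D : Matrix ((Fin 3 × Fin b) ⊕ (Fin 11 × Fin b))
      ((Fin 3 × Fin b) ⊕ (Fin 9 × Fin b)) F) =
      B.submatrix (Sum.elim (fun x => (.inl x.1, x.2)) (fun x => (.inr x.1, x.2)))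
        (Sum.elim (fun x => (.inl x.1, x.2)) (fun x => (.inr x.1, x.2))) := by
    ext (⟨x, x'⟩ | x) (⟨y, y'⟩ | y)
    · have h1 : bl B (.inl x) (.inl y) = (if x = y then (1 : F) else 0) • 1 :=
        bl_known hB rfl
      have h2 := congrFun (congrFun h1 x') y'
      rw [Matrix.fromBlocks_apply₁₁, Matrix.submatrix_apply]
      change _ = bl B (.inl x) (.inl y) x' y'
      rw [h2, Matrix.smul_apply, Matrix.one_apply, Matrix.one_apply]
      simp only [Prod.mk.injEq]
      split_ifs <;> simp_all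
    · rfl
    · rfl
    · rfl
  have h1 := eq_mul_of_rank_le C R D (by
    rw [e]
    refine (Matrix.rank_submatrix_le _ _ _).trans (hr.trans ?_)
    simp)
  ext p r
  have h2 := congrFun (congrFun h1 (i, p)) (j, r)
  rw [Matrix.mul_apply, Fintype.sum_prod_type] at h2
  rw [Matrix.sum_apply]
  exact h2

theorem final {q : F} (hb : 1 ≤ b) (hq : ∀ n : ℕ, 1 ≤ n → q ^ n ≠ 1)
    {a c d e m f f' g h h' g' s s' v1 v2 w1 w2 x1 x2 x3 y1 y2 y3 : Matrix (Fin b) (Fin b) F}
    (A1V : 0 = v1 + a * v2) (A2V : 0 = v2 + c) (EV : 0 = v1 + m) (B1W : 0 = w1 + d * w2)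
    (B2W : 0 = w2 + e) (EW : 0 = w1 + m) (A1C1 : 0 = x1 + a) (FC1 : 0 = x1 + f)
    (FC2 : 0 = x2 + f') (FK1 : 0 = f + -f') (GC2 : 0 = x2 + g) (GC3 : 0 = x3 + g)
    (B2C3 : 0 = x3 + e) (HC1 : 1 = s * x1) (B1D1 : 0 = y1 + d) (F'D1 : 0 = y1 + h)
    (F'D2 : 0 = y2 + h') (F'K1 : 0 = h + -h') (G'D2 : 0 = y2 + g') (G'D3 : 0 = q • y3 + g')
    (A2D3 : 0 = y3 + c) (H'D1 : 1 = s' * y1) : False := by
  have ea : a = -x1 := eq_neg_of_add_eq_zero_right A1C1.symm
  have ef : f = -x1 := eq_neg_of_add_eq_zero_right FC1.symm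
  have ef' : f' = f := (sub_eq_zero.mp ((sub_eq_add_neg _ _).trans FK1.symm)).symm
  have ex2 : x2 = x1 := by
    rw [eq_neg_of_add_eq_zero_left FC2.symm, ef', ef, neg_neg]
  have ex3 : x3 = x1 := by
    rw [eq_neg_of_add_eq_zero_left GC3.symm, eq_neg_of_add_eq_zero_right GC2.symm, neg_neg, ex2]
  have ee : e = -x1 := by rw [eq_neg_of_add_eq_zero_right B2C3.symm, ex3]
  have ew2 : w2 = x1 := by rw [eq_neg_of_add_eq_zero_left B2W.symm, ee, neg_neg]
  have ed : d = -y1 := eq_neg_of_add_eq_zero_right B1D1.symm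
  have eh : h = -y1 := eq_neg_of_add_eq_zero_right F'D1.symm
  have eh' : h' = h := (sub_eq_zero.mp ((sub_eq_add_neg _ _).trans F'K1.symm)).symm
  have ey2 : y2 = y1 := by
    rw [eq_neg_of_add_eq_zero_left F'D2.symm, eh', eh, neg_neg]
  have ey3 : q • y3 = y1 := by
    rw [eq_neg_of_add_eq_zero_left G'D3.symm, eq_neg_of_add_eq_zero_right G'D2.symm, neg_neg, ey2]
  have ec : c = -y3 := eq_neg_of_add_eq_zero_right A2D3.symm
  have ev2 : v2 = y3 := by rw [eq_neg_of_add_eq_zero_left A2V.symm, ec, neg_neg]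
  have ev1 : v1 = x1 * y3 := by
    rw [eq_neg_of_add_eq_zero_left A1V.symm, ea, ev2, neg_mul, neg_neg]
  have ew1 : w1 = q • (y3 * x1) := by
    rw [eq_neg_of_add_eq_zero_left B1W.symm, ed, ew2, neg_mul, neg_neg, ← ey3, smul_mul_assoc]
  have key : x1 * y3 = q • (y3 * x1) := by
    rw [← ev1, ← ew1, eq_neg_of_add_eq_zero_left EV.symm, eq_neg_of_add_eq_zero_left EW.symm]
  have hx : x1.det ≠ 0 := by
    intro h0
    have := congrArg Matrix.det HC1
    rw [Matrix.det_mul, Matrix.det_one, h0, mul_zero] at this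
    exact one_ne_zero this
  have hy : y3.det ≠ 0 := by
    intro h0
    have := congrArg Matrix.det H'D1
    rw [Matrix.det_mul, Matrix.det_one, ← ey3, Matrix.det_smul, h0, mul_zero, mul_zero] at this
    exact one_ne_zero this
  have hdet := congrArg Matrix.det key
  rw [Matrix.det_smul, Matrix.det_mul, Matrix.det_mul, Fintype.card_fin] at hdet
  refine hq b hb ?_
  have h2 : y3.det * x1.det ≠ 0 := mul_ne_zero hy hx
  apply mul_right_cancel₀ h2
  rw [one_mul, ← hdet, mul_comm]

theorem lower {q : F} (hq : ∀ n : ℕ, 1 ≤ n → q ^ n ≠ 1) (hb : 1 ≤ b)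
    {B : Matrix ((Fin 3 ⊕ Fin 11) × Fin b) ((Fin 3 ⊕ Fin 9) × Fin b) F}
    (hB : IsCompletion (tensor (A' q) b) B) : 3 * b + 1 ≤ B.rank := by
  by_contra hlt
  have hr : B.rank ≤ 3 * b := by omega
  have hK := blocks hB hr
  simp only [Fin.sum_univ_three] at hK
  have kr : ∀ (i : Fin 11) (k : Fin 3) (a : F), rowK q i k = some a →
      bl B (.inr i) (.inl k) = a • (1 : Matrix (Fin b) (Fin b) F) :=
    fun i k a h => bl_known hB h
  have kc : ∀ (j : Fin 9) (k : Fin 3) (a : F), colK F j k = some a →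
      bl B (.inl k) (.inr j) = a • (1 : Matrix (Fin b) (Fin b) F) :=
    fun j k a h => bl_known hB h
  have kb : ∀ (i : Fin 11) (j : Fin 9) (a : F), botK F i j = some a →
      bl B (.inr i) (.inr j) = a • (1 : Matrix (Fin b) (Fin b) F) :=
    fun i j a h => bl_known hB h
  have r00 := kr 0 0 1 rfl
  have r02 := kr 0 2 0 rfl
  have r10 := kr 1 0 0 rfl
  have r11 := kr 1 1 1 rfl
  have r20 := kr 2 0 1 rfl
  have r22 := kr 2 2 0 rfl
  have r30 := kr 3 0 0 rfl
  have r31 := kr 3 1 1 rfl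
  have r40 := kr 4 0 1 rfl
  have r41 := kr 4 1 0 rfl
  have r50 := kr 5 0 1 rfl
  have r60 := kr 6 0 1 rfl
  have r61 := kr 6 1 1 rfl
  have r70 := kr 7 0 1 rfl
  have r80 := kr 8 0 1 rfl
  have r81 := kr 8 1 q rfl
  have r91 := kr 9 1 0 rfl
  have r92 := kr 9 2 0 rfl
  have rA1 := kr 10 1 0 rfl
  have rA2 := kr 10 2 0 rfl
  have c02 := kc 0 2 1 rfl
  have c12 := kc 1 2 1 rfl
  have c21 := kc 2 1 1 rfl
  have c22 := kc 2 2 0 rfl
  have c31 := kc 3 1 0 rfl
  have c32 := kc 3 2 1 rfl
  have c40 := kc 4 0 0 rfl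
  have c42 := kc 4 2 1 rfl
  have c50 := kc 5 0 0 rfl
  have c51 := kc 5 1 1 rfl
  have c52 := kc 5 2 (-1) rfl
  have c61 := kc 6 1 1 rfl
  have c62 := kc 6 2 0 rfl
  have c71 := kc 7 1 0 rfl
  have c72 := kc 7 2 1 rfl
  have c80 := kc 8 0 0 rfl
  have c82 := kc 8 2 1 rfl
  have A1V := hK 0 0
  have A2V := hK 1 0
  have EV := hK 4 0
  have B1W := hK 2 1
  have B2W := hK 3 1
  have EW := hK 4 1
  have A1C1 := hK 0 2
  have FC1 := hK 5 2
  have FC2 := hK 5 3
  have FK1 := hK 5 5
  have GC2 := hK 6 3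
  have GC3 := hK 6 4
  have B2C3 := hK 3 4
  have HC1 := hK 9 2
  have B1D1 := hK 2 6
  have F'D1 := hK 7 6
  have F'D2 := hK 7 7
  have F'K1 := hK 7 5
  have G'D2 := hK 8 7
  have G'D3 := hK 8 8
  have A2D3 := hK 1 8
  have H'D1 := hK 10 6
  rw [kb 0 0 0 rfl, r00, r02] at A1V
  rw [kb 1 0 0 rfl, r10, r11, c02] at A2V
  rw [kb 4 0 0 rfl, r40, r41, c02] at EV
  rw [kb 2 1 0 rfl, r20, r22] at B1W
  rw [kb 3 1 0 rfl, r30, r31, c12] at B2W
  rw [kb 4 1 0 rfl, r40, r41, c12] at EW
  rw [kb 0 2 0 rfl, r00, r02, c21] at A1C1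
  rw [kb 5 2 0 rfl, r50, c21, c22] at FC1
  rw [kb 5 3 0 rfl, r50, c31, c32] at FC2
  rw [kb 5 5 0 rfl, r50, c50, c51, c52] at FK1
  rw [kb 6 3 0 rfl, r60, r61, c31, c32] at GC2
  rw [kb 6 4 0 rfl, r60, r61, c40, c42] at GC3
  rw [kb 3 4 0 rfl, r30, r31, c42] at B2C3
  rw [kb 9 2 1 rfl, r91, r92] at HC1
  rw [kb 2 6 0 rfl, r20, r22, c61] at B1D1
  rw [kb 7 6 0 rfl, r70, c61, c62] at F'D1
  rw [kb 7 7 0 rfl, r70, c71, c72] at F'D2
  rw [kb 7 5 0 rfl, r70, c50, c51, c52] at F'K1
  rw [kb 8 7 0 rfl, r80, r81, c71, c72] at G'D2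
  rw [kb 8 8 0 rfl, r80, r81, c80, c82] at G'D3
  rw [kb 1 8 0 rfl, r10, r11, c82] at A2D3
  rw [kb 10 6 1 rfl, rA1, rA2] at H'D1
  simp only [zero_smul, one_smul, zero_mul, mul_zero, one_mul, mul_one, add_zero, zero_add,
    neg_smul, mul_neg] at A1V A2V EV B1W B2W EW A1C1 FC1 FC2 FK1 GC2 GC3 B2C3 HC1
  simp only [zero_smul, one_smul, zero_mul, mul_zero, one_mul, mul_one, add_zero, zero_add,
    smul_mul_assoc, neg_smul, mul_neg] at B1D1 F'D1 F'D2 F'K1 G'D2 G'D3 A2D3 H'D1
  exact final hb hq A1V A2V EV B1W B2W EW A1C1 FC1 FC2 FK1 GC2 GC3 B2C3 HC1 B1D1 F'D1 F'D2 F'K1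
    G'D2 G'D3 A2D3 H'D1

/-- The first three blocks of the last eleven block rows. -/
def BR (q : F) (x y xi yi : Matrix (Fin b) (Fin b) F) : Fin 11 → Fin 3 → Matrix (Fin b) (Fin b) F :=
  ![![1, -x, 0],
    ![0, 1, -y],
    ![1, -(q • y), 0],
    ![0, 1, -x],
    ![1, 0, -(x * y)],
    ![1, -x, -x],
    ![1, 1, -x],
    ![1, -(q • y), -(q • y)],
    ![1, q • 1, -(q • y)],
    ![xi, 0, 0],
    ![yi, 0, 0]]

/-- The first three blocks of the last nine block columns. -/
def BC (q : F) (x y : Matrix (Fin b) (Fin b) F) : Fin 9 → Fin 3 → Matrix (Fin b) (Fin b) F :=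
  ![![x * y, y, 1],
    ![q • (y * x), x, 1],
    ![x, 1, 0],
    ![x, 0, 1],
    ![0, x, 1],
    ![0, 1, -1],
    ![q • y, 1, 0],
    ![q • y, 0, 1],
    ![0, y, 1]]

theorem upper {q : F} (x y xi yi : Matrix (Fin b) (Fin b) F) (hx : xi * x = 1)
    (hy : yi * (q • y) = 1) (u w : Fin b → F) (hd : x * y - q • (y * x) = vecMulVec u w) :
    ∃ B : Matrix ((Fin 3 ⊕ Fin 11) × Fin b) ((Fin 3 ⊕ Fin 9) × Fin b) F,
      IsCompletion (tensor (A' q) b) B ∧ B.rank ≤ 3 * b + 1 := by
  have hy' : q • (yi * y) = 1 := by rw [← mul_smul_comm]; exact hy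
  let L : (Fin 3 ⊕ Fin 11) → Fin 3 → Matrix (Fin b) (Fin b) F :=
    Sum.elim (fun i k => if i = k then 1 else 0) (BR q x y xi yi)
  let M : (Fin 3 ⊕ Fin 9) → Fin 3 → Matrix (Fin b) (Fin b) F :=
    Sum.elim (fun j k => if j = k then 1 else 0) (BC q x y)
  let u' : (Fin 3 ⊕ Fin 11) → Fin b → F := fun i p => if i = .inr 4 then u p else 0
  let w' : (Fin 3 ⊕ Fin 9) → Fin b → F := fun j p => if j = .inr 1 then w p else 0
  let L' : Matrix ((Fin 3 ⊕ Fin 11) × Fin b) ((Fin 3 × Fin b) ⊕ Unit) F :=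
    fun i s => Sum.elim (fun t => L i.1 t.1 i.2 t.2) (fun _ => u' i.1 i.2) s
  let M' : Matrix ((Fin 3 × Fin b) ⊕ Unit) ((Fin 3 ⊕ Fin 9) × Fin b) F :=
    fun s j => Sum.elim (fun t => M j.1 t.1 t.2 j.2) (fun _ => w' j.1 j.2) s
  refine ⟨L' * M', ?_, ?_⟩
  · have hbl : ∀ i j, bl (L' * M') i j = L i 0 * M j 0 + L i 1 * M j 1 + L i 2 * M j 2 +
        vecMulVec (u' i) (w' j) := by
      intro i j
      ext p r
      rw [bl, Matrix.mul_apply, Fintype.sum_sum_type, Fintype.sum_prod_type, Fin.sum_univ_three]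
      simp only [Matrix.add_apply, Matrix.mul_apply, vecMulVec_apply, Finset.univ_unique,
        Finset.sum_singleton]
      rfl
    have key : ∀ i j a, A' q i j = some a → bl (L' * M') i j = a • 1 := by
      intro i j a h
      rw [hbl]
      rcases i with i | i <;> rcases j with j | j
      · have h' : (if i = j then (1 : F) else 0) = a := Option.some.inj h
        rw [← h']
        have e1 : u' (.inl i) = 0 := by funext p; simp [u']
        rw [e1, zero_vecMulVec, add_zero]
        fin_cases i <;> fin_cases j <;> simp [L, M]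
      · have h' : colK F j i = some a := h
        have e1 : u' (.inl i) = 0 := by funext p; simp [u']
        rw [e1, zero_vecMulVec, add_zero]
        fin_cases i <;> fin_cases j <;> simp [colK] at h' <;> subst h' <;> simp [L, M, BC]
      · have h' : rowK q i j = some a := h
        have e1 : w' (.inl j) = 0 := by funext p; simp [w']
        rw [e1, vecMulVec_zero, add_zero]
        fin_cases i <;> fin_cases j <;> simp [rowK] at h' <;> subst h' <;> simp [L, M, BR]
      · have h' : botK F i j = some a := h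
        by_cases hij : i = 4 ∧ j = 1
        · obtain ⟨rfl, rfl⟩ := hij
          have e0 : (0 : F) = a := Option.some.inj h'
          have e1 : u' (.inr 4) = u := by funext p; simp [u']
          have e2 : w' (.inr 1) = w := by funext p; simp [w']
          rw [e1, e2, ← hd, ← e0]
          simp [L, M, BR, BC]
          abel
        · have e1 : vecMulVec (u' (.inr i)) (w' (.inr j)) = 0 := by
            by_cases hi : i = 4
            · have hj : j ≠ 1 := fun hj => hij ⟨hi, hj⟩
              have : w' (.inr j) = 0 := by funext p; simp [w', hj]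
              rw [this, vecMulVec_zero]
            · have : u' (.inr i) = 0 := by funext p; simp [u', hi]
              rw [this, zero_vecMulVec]
          rw [e1, add_zero]
          fin_cases i <;> fin_cases j <;> simp [botK] at h' <;> subst h' <;>
            simp [L, M, BR, BC, hx, hy'] <;> exact absurd ⟨rfl, rfl⟩ hij
    rintro ⟨i, p⟩ ⟨j, r⟩ a h
    rw [tensor, Option.map_eq_some_iff] at h
    obtain ⟨a', h1, rfl⟩ := h
    have := congrFun (congrFun (key i j a' h1) p) r
    rw [bl, Matrix.smul_apply, Matrix.one_apply] at this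
    rw [this]
    simp only
    split_ifs <;> simp
  · refine (Matrix.rank_mul_le_left _ _).trans ((Matrix.rank_le_card_width _).trans ?_)
    simp

theorem approx {q : F} (hq0 : q ≠ 0) (c : ℕ) :
    ∃ (x y xi yi : Matrix (Fin (c + 1)) (Fin (c + 1)) F) (u w : Fin (c + 1) → F),
      xi * x = 1 ∧ yi * (q • y) = 1 ∧ x * y - q • (y * x) = vecMulVec u w := by
  refine ⟨Matrix.diagonal fun i => q ^ (i : ℕ), Matrix.of fun i j => if i = j + 1 then 1 else 0,
    Matrix.diagonal fun i => (q ^ (i : ℕ))⁻¹,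
    q⁻¹ • (Matrix.of fun i j : Fin (c + 1) => if j = i + 1 then (1 : F) else 0),
    fun i => if i = 0 then 1 else 0, fun j => if j = Fin.last c then 1 - q ^ (c + 1) else 0,
    ?_, ?_, ?_⟩
  · rw [Matrix.diagonal_mul_diagonal, ← Matrix.diagonal_one]
    congr 1
    funext i
    exact inv_mul_cancel₀ (pow_ne_zero _ hq0)
  · rw [smul_mul_assoc, mul_smul_comm, smul_smul, inv_mul_cancel₀ hq0, one_smul]
    ext i k
    simp only [Matrix.mul_apply, Matrix.one_apply, Matrix.of_apply, mul_ite, mul_one, mul_zero,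
      Finset.sum_ite_eq', Finset.mem_univ, if_true, add_left_inj]
    by_cases h : i = k
    · simp [h]
    · have h' : ¬ k = i := fun h' => h h'.symm
      rw [if_neg h, if_neg h']
  · ext i j
    rw [Matrix.sub_apply, Matrix.smul_apply, Matrix.diagonal_mul, Matrix.mul_diagonal,
      vecMulVec_apply, Matrix.of_apply]
    by_cases hj : j = Fin.last c
    · subst hj
      rw [Fin.last_add_one]
      by_cases hi : i = 0
      · subst hi
        simp [pow_succ']
      · simp [hi]
    · rw [if_neg hj, mul_zero]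
      by_cases hi : i = j + 1
      · subst hi
        have hlt : j < Fin.last c := lt_of_le_of_ne (Fin.le_last j) hj
        have : ((j + 1 : Fin (c + 1)) : ℕ) = (j : ℕ) + 1 := Fin.val_add_one_of_lt hlt
        simp [this, pow_succ']
      · simp [hi]

/-- The partial matrix. -/
def A (q : F) : PartialMatrix F (Fin (3 + 11)) (Fin (3 + 9)) := fun i j =>
  A' q (finSumFinEquiv.symm i) (finSumFinEquiv.symm j)

theorem mr_bounds {q : F} (hq0 : q ≠ 0) (hq : ∀ n : ℕ, 1 ≤ n → q ^ n ≠ 1) (hb : 1 ≤ b) :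
    3 * b + 1 ≤ mr (tensor (A q) b) ∧ mr (tensor (A q) b) ≤ 3 * b + 1 := by
  constructor
  · obtain ⟨B, hB, hr⟩ := exists_completion (tensor (A q) b)
    rw [← hr]
    refine (lower hq hb (B := B.submatrix (fun i => (finSumFinEquiv i.1, i.2))
      (fun j => (finSumFinEquiv j.1, j.2))) ?_).trans (Matrix.rank_submatrix_le _ _ _)
    rintro ⟨i, p⟩ ⟨j, r⟩ a h
    refine hB _ _ a ?_
    simpa [tensor, A] using h
  · obtain ⟨c, rfl⟩ : ∃ c, b = c + 1 := ⟨b - 1, by omega⟩
    obtain ⟨x, y, xi, yi, u, w, h1, h2, h3⟩ := approx hq0 c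
    obtain ⟨B, hB, hr⟩ := upper x y xi yi h1 h2 u w h3
    refine (mr_le (B := B.submatrix (fun i => (finSumFinEquiv.symm i.1, i.2))
      (fun j => (finSumFinEquiv.symm j.1, j.2))) ?_).trans
        ((Matrix.rank_submatrix_le _ _ _).trans hr)
    rintro ⟨i, p⟩ ⟨j, r⟩ a h
    exact hB _ _ a h

theorem fmr_lt {q : F} (hq0 : q ≠ 0) (hq : ∀ n : ℕ, 1 ≤ n → q ^ n ≠ 1) (hb : 1 ≤ b) :
    fmr (A q) < (mr (tensor (A q) b) : ℝ) / b := by
  have h1 : fmr (A q) ≤ 3 := by
    have hbdd : BddBelow (Set.range fun b : {b : ℕ // 1 ≤ b} =>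
        (mr (tensor (A q) b) : ℝ) / (b : ℕ)) := by
      refine ⟨0, ?_⟩
      rintro _ ⟨b, rfl⟩
      positivity
    refine le_of_forall_pos_le_add fun ε hε => ?_
    obtain ⟨n, hn⟩ := exists_nat_one_div_lt hε
    refine (ciInf_le hbdd ⟨n + 1, by omega⟩).trans ?_
    have h2 := (mr_bounds hq0 hq (b := n + 1) (by omega)).2
    have h3 : (mr (tensor (A q) (n + 1)) : ℝ) ≤ 3 * (n + 1) + 1 := by exact_mod_cast h2
    have h4 : (0 : ℝ) < (n : ℝ) + 1 := by positivity
    change (mr (tensor (A q) (n + 1)) : ℝ) / ((n + 1 : ℕ) : ℝ) ≤ 3 + ε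
    rw [div_le_iff₀ (by exact_mod_cast h4)]
    rw [div_lt_iff₀ h4] at hn
    push_cast
    nlinarith
  refine h1.trans_lt ?_
  have h2 := (mr_bounds hq0 hq hb).1
  have h3 : 3 * (b : ℝ) + 1 ≤ (mr (tensor (A q) b) : ℝ) := by exact_mod_cast h2
  have h4 : (0 : ℝ) < b := by exact_mod_cast hb
  rw [lt_div_iff₀ h4]
  linarith

end example_

/-- **`Q1` has a negative answer** over every field with an element of infinite multiplicative
order, in particular over every field of characteristic zero (e.g. `ℂ`). -/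
theorem result.{u} :
    (∀ (F : Type u) [Field F], (∃ q : F, q ≠ 0 ∧ ∀ n : ℕ, 1 ≤ n → q ^ n ≠ 1) →
      ∃ (m n : ℕ) (A : PartialMatrix F (Fin m) (Fin n)),
        ∀ b : ℕ, 1 ≤ b → fmr A < (mr (tensor A b) : ℝ) / b) ∧
    (∀ (F : Type u) [Field F] [CharZero F],
      ∃ (m n : ℕ) (A : PartialMatrix F (Fin m) (Fin n)),
        ∀ b : ℕ, 1 ≤ b → fmr A < (mr (tensor A b) : ℝ) / b) := by
  have main : ∀ (F : Type u) [Field F], (∃ q : F, q ≠ 0 ∧ ∀ n : ℕ, 1 ≤ n → q ^ n ≠ 1) →
      ∃ (m n : ℕ) (A : PartialMatrix F (Fin m) (Fin n)),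
        ∀ b : ℕ, 1 ≤ b → fmr A < (mr (tensor A b) : ℝ) / b := by
    rintro F _ ⟨q, hq0, hq⟩
    exact ⟨_, _, A q, fun b hb => fmr_lt hq0 hq hb⟩
  refine ⟨main, fun F _ _ => main F ⟨2, two_ne_zero, fun n hn h => ?_⟩⟩
  have h2 : ((2 ^ n : ℕ) : F) = ((1 : ℕ) : F) := by push_cast; exact h
  have h3 : 2 ^ n = 1 := Nat.cast_injective h2
  have h4 : 2 ^ 1 ≤ 2 ^ n := Nat.pow_le_pow_right (by norm_num) hn
  omega

end Pool.Agent.Results.MP_3569d7_al.NotAttained
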